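import Mathlib
import Pool.Agent.H.MP_acc225_nt.B

namespace Pool.Agent.Results.MP_acc225_nt.No

open Finset Filter Topology Pool.Agent.H.MP_acc225_nt

/-- the square `Q_N` translated by `⌊N^(1+ε)⌋` -/
noncomputable def Phi (ε : ℝ) (N : ℕ) : Finset GaussianInt :=
  ((Ioo (-(N : ℤ)) N) ×ˢ (Ioo (-(N : ℤ)) N)).image
    fun p => (⟨⌊(N : ℝ) ^ (1 + ε)⌋ + p.1, p.2⟩ : GaussianInt)

/-- the average of `f` over `Phi ε N` -/
noncomputable def avg (ε : ℝ) (f : GaussianInt → ℝ) (N : ℕ) : ℝ :=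
  (∑ n ∈ Phi ε N, f n) / (Phi ε N).card

theorem result (ε : ℝ) (hε : 0 < ε) :
    ∃ f : GaussianInt → ℝ, (∀ m n, m ≠ 0 → n ≠ 0 → f (m * n) = f m * f n) ∧
      (∃ C : ℝ, ∀ n, n ≠ 0 → |f n| ≤ C) ∧ (∀ N, ∀ n ∈ Phi ε N, n ≠ 0) ∧
      ¬ ∃ l : ℝ, Tendsto (avg ε f) atTop (𝓝 l) := by
  classical
  obtain ⟨S, a, b, hS, ha, hb, h1, h2⟩ := exists_set hε
  refine ⟨fun n => if Hs S n then 0 else 1, ?_, ⟨1, ?_⟩, fun N n hn => Ph_ne hε hn, ?_⟩
  · intro m n _ _
    have : Hs S (m * n) ↔ Hs S m ∨ Hs S n := by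
      constructor
      · rintro ⟨p, hp, hd⟩
        exact ((hS p hp).dvd_or_dvd hd).imp (fun h => ⟨p, hp, h⟩) fun h => ⟨p, hp, h⟩
      · rintro (⟨p, hp, hd⟩ | ⟨p, hp, hd⟩)
        · exact ⟨p, hp, hd.mul_right n⟩
        · exact ⟨p, hp, hd.mul_left m⟩
    by_cases h1 : Hs S m <;> by_cases h2 : Hs S n <;> simp [this, h1, h2]
  · intro n _
    dsimp only
    split_ifs <;> simp
  · rintro ⟨l, hl⟩
    have c0 : 0 < ε / (4 * (1 + ε)) := by positivity
    have pos : ∀ N : ℕ, 1 ≤ N → (0 : ℝ) < (Ph ε N).card := by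
      intro N hN
      unfold Ph
      rw [card_sq]
      have : 0 < 2 * N - 1 := by omega
      positivity
    have e : ∀ N : ℕ, 1 ≤ N → avg ε (fun n => if Hs S n then 0 else 1) N
        = 1 - (hit S (Ph ε N) : ℝ) / (Ph ε N).card := by
      intro N hN
      have p := pos N hN
      have c := Finset.card_filter_add_card_filter_not (s := Ph ε N) (Hs S)
      have c' : (hit S (Ph ε N) : ℝ) + ((Ph ε N).filter fun z => ¬ Hs S z).card = (Ph ε N).card := by
        exact_mod_cast c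
      show (∑ n ∈ Ph ε N, if Hs S n then (0 : ℝ) else 1) / (Ph ε N).card = _
      rw [Finset.sum_ite, Finset.sum_const_zero, Finset.sum_const, nsmul_eq_mul, mul_one, zero_add]
      field_simp
      linarith
    have ta : Tendsto a atTop atTop := tendsto_atTop_mono (fun j => (ha j).le) tendsto_id
    have tb : Tendsto b atTop atTop := tendsto_atTop_mono (fun j => (hb j).le) tendsto_id
    have u1 : l ≤ 1 - ε / (4 * (1 + ε)) := by
      refine le_of_tendsto' (hl.comp ta) fun j => ?_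
      have hj : 1 ≤ a j := by have := ha j; omega
      rw [Function.comp, e _ hj]
      have := (le_div_iff₀ (pos _ hj)).2 (h1 j)
      linarith
    have u2 : 1 - ε / (4 * (1 + ε)) / 2 ≤ l := by
      refine ge_of_tendsto' (hl.comp tb) fun j => ?_
      have hj : 1 ≤ b j := by have := hb j; omega
      rw [Function.comp, e _ hj]
      have := (div_le_iff₀ (pos _ hj)).2 (h2 j)
      linarith
    linarith

end Pool.Agent.Results.MP_acc225_nt.No
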